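import Mathlib
set_option autoImplicit false
namespace Pool.Agent.Results.MP_ee20a5_al.Counter

/-- A rigid rational tuple. -/
def Rigid {n : ℕ} (x : Fin n → ℚ) : Prop :=
  ∀ y : Fin n → ℚ, (∀ i, x i = 1 → y i = 1) → (∀ i j k, x i + x j = x k → y i + y j = y k) → y = x

theorem result : ∃ (n : ℕ) (x : Fin n → ℚ), 2 ≤ n ∧ Rigid x ∧ (∀ i j, i ≤ j → |x i| ≤ |x j|) ∧
    ∃ i j : Fin n, j.val = i.val + 1 ∧ 1 ≤ |x i| ∧ 2 * |x i| < |x j| := by
  refine ⟨6, ![1, 3, 4, 6, 8, 9], by norm_num, fun y h1 h2 => ?_, by decide +kernel,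
    0, 1, rfl, by norm_num, by norm_num⟩
  have a := h1 0 rfl
  have b := h2 0 1 2 (by decide +kernel)
  have c := h2 1 1 3 (by decide +kernel)
  have d := h2 1 3 5 (by decide +kernel)
  have e := h2 2 2 4 (by decide +kernel)
  have f := h2 0 4 5 (by decide +kernel)
  ext i
  fin_cases i <;> simp <;> linarith

end Pool.Agent.Results.MP_ee20a5_al.Counter
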